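import Mathlib
import Pool.Agent.H96.Sing.Defs

/-!
Symmetric designs with a point-transitive automorphism group: definitions.
(`IsSymmetricDesign`, `IsAut` are defined in `Pool.Agent.H96.Sing.Defs`.)
-/

set_option autoImplicit false

namespace Pool.Agent.H73.TR

open Finset Pool.Agent.H96.Sing

/-- The numbers `v ≤ X` for which some symmetric `(v,k,l)`-design with `1 < k < v - 1` has an
automorphism whose order is a power `q^j`, `j ≥ 1`, of a prime divisor `q` of `v` and which has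
an even number of fixed points. -/
def evenPowOrders (X : ℕ) : Set ℕ :=
  {v | v ≤ X ∧ ∃ (k l : ℕ) (B : Fin v → Finset (Fin v)), 1 < k ∧ k + 1 < v ∧
    IsSymmetricDesign v k l B ∧ ∃ (s : Equiv.Perm (Fin v)) (q j : ℕ), IsAut B s ∧ q.Prime ∧
      q ∣ v ∧ 0 < j ∧ orderOf s = q ^ j ∧ Even (univ.filter (fun x => s x = x)).card}

/-- The numbers `v ≤ X` for which some symmetric `(v,k,l)`-design with `1 < k < v - 1` has an
automorphism whose order is a power `q^j`, `j ≥ 1`, of `q` and which has an even number of fixed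
points. -/
def evenPowFixedOrders (q X : ℕ) : Set ℕ :=
  {v | v ≤ X ∧ ∃ (k l : ℕ) (B : Fin v → Finset (Fin v)), 1 < k ∧ k + 1 < v ∧
    IsSymmetricDesign v k l B ∧ ∃ (s : Equiv.Perm (Fin v)) (j : ℕ), IsAut B s ∧ 0 < j ∧
      orderOf s = q ^ j ∧ Even (univ.filter (fun x => s x = x)).card}

/-- The numbers `v ≤ X` for which some symmetric `(v,k,l)`-design with `1 < k < v - 1` has a
point-transitive group of automorphisms. -/
def pointTransitiveOrders (X : ℕ) : Set ℕ :=
  {v | v ≤ X ∧ ∃ (k l : ℕ) (B : Fin v → Finset (Fin v)), 1 < k ∧ k + 1 < v ∧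
    IsSymmetricDesign v k l B ∧ ∃ H : Subgroup (Equiv.Perm (Fin v)), (∀ s ∈ H, IsAut B s) ∧
      ∀ x y, ∃ s ∈ H, s x = y}

/-- The numbers `v ≤ X` for which some symmetric `(v,k,l)`-design with `1 < k < v - 1` has a
solvable point-transitive group of automorphisms. -/
def solvableTransitiveOrders (X : ℕ) : Set ℕ :=
  {v | v ≤ X ∧ ∃ (k l : ℕ) (B : Fin v → Finset (Fin v)), 1 < k ∧ k + 1 < v ∧
    IsSymmetricDesign v k l B ∧ ∃ H : Subgroup (Equiv.Perm (Fin v)), (∀ s ∈ H, IsAut B s) ∧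
      (∀ x y, ∃ s ∈ H, s x = y) ∧ Group.IsSolvable H}

/-- `v = m q^a` with `q` prime, `a ≥ 1` and `1 ≤ m < q`. -/
def TopPrimePower (v : ℕ) : Prop := ∃ q a : ℕ, q.Prime ∧ 0 < a ∧ q ^ a ∣ v ∧ v < q ^ (a + 1)

end Pool.Agent.H73.TR
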