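import Pool.Agent.H73.TR.LocE

/-!
The local condition for an automorphism of prime power order of a symmetric design.
-/

set_option autoImplicit false

open Finset Classical Pool.Agent.H96.Sing

namespace Pool.Agent.H73.TR

theorem pow_val_add {X : Type} (s : Equiv.Perm X) {n : ℕ} [NeZero n] (hs : s ^ n = 1)
    (a b : ZMod n) : s ^ (a + b).val = s ^ a.val * s ^ b.val := by
  rw [← pow_add, ZMod.val_add]
  conv_rhs => rw [← Nat.mod_add_div (a.val + b.val) n, pow_add, pow_mul, hs, one_pow, mul_one]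

/-- the action of `ZMod n` by the powers of a permutation -/
def act {X : Type} (s : Equiv.Perm X) (n : ℕ) [NeZero n] (hs : s ^ n = 1) :
    Multiplicative (ZMod n) →* Equiv.Perm X where
  toFun g := s ^ (Multiplicative.toAdd g).val
  map_one' := by simp
  map_mul' := by
    intro a b
    exact pow_val_add s hs _ _

theorem fix_gcd {X : Type} (s : Equiv.Perm X) {a b : ℕ} (hab : Nat.Coprime a b) {x : X}
    (ha : (s ^ a) x = x) (hb : (s ^ b) x = x) : s x = x := by
  have h1 : ∀ (k : ℤ), ((s ^ a) ^ k) x = x := fun k => by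
    exact Equiv.Perm.zpow_apply_eq_self_of_apply_eq_self ha k
  have h2 : ∀ (k : ℤ), ((s ^ b) ^ k) x = x := fun k => by
    exact Equiv.Perm.zpow_apply_eq_self_of_apply_eq_self hb k
  have h3 : (1 : ℤ) = a * Nat.gcdA a b + b * Nat.gcdB a b := by
    have := Nat.gcd_eq_gcd_ab a b
    rw [hab] at this
    exact_mod_cast this
  have h4 : s = (s ^ a) ^ (Nat.gcdA a b) * (s ^ b) ^ (Nat.gcdB a b) := by
    calc s = s ^ (1 : ℤ) := (zpow_one s).symm
      _ = s ^ ((a:ℤ) * Nat.gcdA a b + b * Nat.gcdB a b) := by rw [← h3]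
      _ = _ := by rw [zpow_add, zpow_mul, zpow_mul, zpow_natCast, zpow_natCast]
  rw [h4, Equiv.Perm.mul_apply, h2, h1]

variable {v k l : ℕ} {B : Fin v → Finset (Fin v)}

theorem keyPow (h : IsSymmetricDesign v k l B) (hl : l < k) (s : Equiv.Perm (Fin v))
    (hs : IsAut B s) (q : ℕ) [hq : Fact q.Prime] (h2q : 2 < q) (j : ℕ) (hsq : s ^ (q ^ j) = 1)
    (hodd : Odd (univ.filter (fun x => s x ≠ x)).card) (p : ℕ) [hp : Fact p.Prime]
    (hpq : p ≠ q) (m : ℕ) (hm : (p:ZMod q)^m = -1) : Even (padicValNat p (k - l)) := by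
  obtain ⟨t, hst⟩ := hs
  -- j is positive
  obtain ⟨i, rfl⟩ : ∃ i, j = i + 1 := by
    rcases j with _ | i
    · exfalso
      rw [pow_zero, pow_one] at hsq
      subst hsq
      simp at hodd
    · exact ⟨i, rfl⟩
  have htq : t ^ (q ^ (i+1)) = 1 := pow_eq_one h hl s t hst _ hsq
  have hne : NeZero (q ^ (i+1)) := ⟨(pow_pos hq.out.pos _).ne'⟩
  have hdvd : q ∣ q ^ (i+1) := dvd_pow_self q (Nat.succ_ne_zero i)
  let χ : Multiplicative (ZMod (q ^ (i+1))) → ZMod q := fun g =>
    ZMod.castHom hdvd (ZMod q) (Multiplicative.toAdd g)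
  have hχv : ∀ g : Multiplicative (ZMod (q ^ (i+1))),
      χ g = (((Multiplicative.toAdd g).val : ℕ) : ZMod q) := by
    intro g
    simp only [χ]
    conv_lhs => rw [← ZMod.natCast_zmod_val (Multiplicative.toAdd g)]
    rw [map_natCast]
  have h1v : ((1 : ZMod (q ^ (i+1))).val : ℕ) = 1 := by
    apply ZMod.val_one''
    intro h1
    exact absurd h1 (Nat.one_lt_pow (Nat.succ_ne_zero i) hq.out.one_lt).ne'
  have hgood : ∀ x, Gd (act s (q ^ (i+1)) hsq) χ x ↔ s x ≠ x := by
    intro x
    constructor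
    · intro hg hx
      have h1 := hg (Multiplicative.ofAdd 1) (by
        change (s ^ (Multiplicative.toAdd (Multiplicative.ofAdd (1 : ZMod (q ^ (i+1))))).val) x = x
        rw [toAdd_ofAdd, h1v, pow_one]
        exact hx)
      rw [hχv, toAdd_ofAdd, h1v, Nat.cast_one] at h1
      exact one_ne_zero h1
    · intro hx g hg
      by_contra hne'
      apply hx
      rw [hχv, ZMod.natCast_eq_zero_iff] at hne'
      refine fix_gcd s (a := (Multiplicative.toAdd g).val) (b := q ^ (i+1)) ?_ hg ?_
      · exact Nat.Coprime.pow_right _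
          (((Nat.Prime.coprime_iff_not_dvd hq.out).2 hne').symm)
      · rw [hsq]; rfl
  have hkl : ((k:ℤ) - l) = ((k - l : ℕ) : ℤ) := by push_cast [hl.le]; ring
  have hn : ((k:ℤ) - l) ≠ 0 := by
    rw [hkl]
    have : k - l ≠ 0 := by omega
    exact_mod_cast this
  have hmain := LC (G := Multiplicative (ZMod (q ^ (i+1)))) (X := Fin v) (Y := Fin v) h2q
    (j := i + 1) (by
      rw [Nat.card_eq_fintype_card, Fintype.card_multiplicative, ZMod.card])
    (act s _ hsq) (act t _ htq) χ (fun a b => by simp only [χ, toAdd_mul, map_add])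
    ⟨Multiplicative.ofAdd 1, by
      rw [hχv, toAdd_ofAdd, h1v, Nat.cast_one]
      exact one_ne_zero⟩ (fun x y => x ∈ B y)
    (fun g x y => pow_apply_iff s t hst _ y x) ((k:ℤ) - l) l hn
    (by
      intro x x'
      have e1 : ∑ y, (if x ∈ B y ∧ x' ∈ B y then (1:ℤ) else 0) =
          ((univ.filter (fun j => x ∈ B j ∧ x' ∈ B j)).card : ℤ) := by
        rw [← sum_boole]
      refine Eq.trans ?_ (e1.trans ?_)
      · refine Finset.sum_congr rfl fun y _ => ?_
        congr
      · rw [pair_count h]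
        split_ifs <;> push_cast <;> ring)
    (by
      intro y y'
      have h1 := block_inter h hl y y'
      have h2 : ((∑ x, (if x ∈ B y ∧ x ∈ B y' then (1:ℤ) else 0) : ℤ) : ℚ) =
          ∑ x, inc B x y * inc B x y' := by
        push_cast
        refine Finset.sum_congr rfl fun x _ => ?_
        simp only [inc]
        by_cases e1 : x ∈ B y <;> by_cases e2 : x ∈ B y' <;> simp [e1, e2]
      rw [h1] at h2
      have h3 : ((∑ x, (if x ∈ B y ∧ x ∈ B y' then (1:ℤ) else 0) : ℤ) : ℚ) =
          ((if y = y' then ((k:ℤ) - l) + l else l : ℤ) : ℚ) := by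
        rw [h2]
        split_ifs <;> push_cast <;> ring
      exact_mod_cast h3)
    (by
      simp only [hgood]
      exact hodd) p hpq m hm
  rwa [hkl, padicValInt.of_nat] at hmain

end Pool.Agent.H73.TR
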