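import Mathlib

/-!
Transitive permutation groups: quotient by a normal subgroup, lifting elements of prime power
order, and permutations without fixed points of prime power order in solvable groups.
-/

set_option autoImplicit false

open Finset Classical

namespace Pool.Agent.H73.TR

/-- lifting an element of prime power order -/
theorem lift_pow {G K : Type} [Group G] [Finite G] [Group K] (θ : G →* K) {q : ℕ} (hq : q.Prime)
    {j : ℕ} (g0 : G) (h : θ g0 ^ q ^ j = 1) :
    ∃ (g : G) (i : ℕ), g ^ q ^ i = 1 ∧ θ g = θ g0 := by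
  have hN : orderOf g0 ≠ 0 := (orderOf_pos g0).ne'
  obtain ⟨a, m, hm, he⟩ := Nat.exists_eq_pow_mul_and_not_dvd hN q hq.ne_one
  have hcop : Nat.Coprime m (q ^ j) :=
    Nat.Coprime.pow_right _ (((Nat.Prime.coprime_iff_not_dvd hq).2 hm).symm)
  obtain ⟨c, hc1, hc2⟩ := Nat.chineseRemainder hcop 0 1
  refine ⟨g0 ^ c, a, ?_, ?_⟩
  · rw [← pow_mul]
    have h1 : m ∣ c := (Nat.modEq_zero_iff_dvd).1 hc1
    obtain ⟨d, rfl⟩ := h1
    have h2 : m * d * q ^ a = orderOf g0 * d := by rw [he]; ring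
    rw [h2, pow_mul, pow_orderOf_eq_one, one_pow]
  · rw [map_pow]
    have h1 : θ g0 ^ c = θ g0 ^ (c % q ^ j) := by
      conv_lhs => rw [← Nat.mod_add_div c (q ^ j), pow_add, pow_mul, h, one_pow, mul_one]
    have h2 : θ g0 ^ 1 = θ g0 ^ (1 % q ^ j) := by
      conv_lhs => rw [← Nat.mod_add_div 1 (q ^ j), pow_add, pow_mul, h, one_pow, mul_one]
    rw [h1, hc2, ← h2, pow_one]

/-- the quotient of a permutation group by a normal subgroup -/
theorem quot {Ω : Type} [Fintype Ω] (H A : Subgroup (Equiv.Perm Ω))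
    (hn : ∀ s ∈ H, ∀ a ∈ A, s * a * s⁻¹ ∈ A) (hA : A ≠ ⊥) :
    ∃ (Ω' : Type) (_ : Fintype Ω') (π : Ω → Ω') (θ : H →* Equiv.Perm Ω'),
      Function.Surjective π ∧ (∀ x y, π x = π y ↔ ∃ a ∈ A, a x = y) ∧
      Fintype.card Ω' < Fintype.card Ω ∧ ∀ (s : H) x, θ s (π x) = π (s.1 x) := by
  let R : Setoid Ω := {
    r := fun x y => ∃ a ∈ A, a x = y
    iseqv := {
      refl := fun x => ⟨1, A.one_mem, rfl⟩
      symm := by
        rintro x y ⟨a, ha, rfl⟩
        exact ⟨a⁻¹, A.inv_mem ha, a.symm_apply_apply x⟩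
      trans := by
        rintro x y z ⟨a, ha, rfl⟩ ⟨b, hb, rfl⟩
        exact ⟨b * a, A.mul_mem hb ha, rfl⟩ } }
  have hR : ∀ x y, (Quotient.mk R x = Quotient.mk R y) ↔ ∃ a ∈ A, a x = y := fun x y =>
    ⟨fun h => Quotient.exact h, fun h => Quotient.sound h⟩
  have hmap : ∀ s ∈ H, ∀ x y, (∃ a ∈ A, a x = y) → ∃ a ∈ A, a (s x) = s y := by
    rintro s hs x y ⟨a, ha, rfl⟩
    refine ⟨s * a * s⁻¹, hn s hs a ha, ?_⟩
    rw [Equiv.Perm.mul_apply, Equiv.Perm.mul_apply]
    congr 2
    exact s.symm_apply_apply x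
  let act : MulAction H (Quotient R) := {
    smul := fun s => Quotient.map s.1 (fun x y h => hmap s.1 s.2 x y h)
    one_smul := by
      intro c
      induction c using Quotient.inductionOn with
      | _ x => rfl
    mul_smul := by
      intro s t c
      induction c using Quotient.inductionOn with
      | _ x => rfl }
  have : Finite (Quotient R) := Quotient.finite _
  let F : Fintype (Quotient R) := Fintype.ofFinite _
  refine ⟨Quotient R, F, Quotient.mk R, MulAction.toPermHom H (Quotient R), ?_, hR, ?_, ?_⟩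
  · intro c
    exact Quotient.exists_rep c
  · refine Fintype.card_lt_of_surjective_not_injective (Quotient.mk R) (fun c => Quotient.exists_rep c) ?_
    intro hinj
    apply hA
    rw [eq_bot_iff]
    intro a ha
    rw [Subgroup.mem_bot]
    ext x
    exact (hinj ((hR x (a x)).2 ⟨a, ha, rfl⟩)).symm
  · intro s x
    rfl

/-- a nontrivial solvable subgroup contains a nontrivial abelian subgroup which it normalises -/
theorem exists_abelian {P : Type} [Group P] (H : Subgroup P) [hs : Group.IsSolvable H] (hH : H ≠ ⊥) :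
    ∃ A : Subgroup P, A ≤ H ∧ A ≠ ⊥ ∧ (∀ s ∈ H, ∀ a ∈ A, s * a * s⁻¹ ∈ A) ∧
      ∀ a ∈ A, ∀ b ∈ A, a * b = b * a := by
  have hnt : derivedSeries H 0 ≠ ⊥ := by
    rw [derivedSeries_zero]
    intro h
    apply hH
    rw [eq_bot_iff]
    intro x hx
    have h1 : (⟨x, hx⟩ : H) ∈ (⊥ : Subgroup H) := by rw [← h]; trivial
    rw [Subgroup.mem_bot] at h1 ⊢
    exact congrArg Subtype.val h1
  have hex := hs.solvable
  set n := Nat.find hex with hn
  have hn1 : derivedSeries H n = ⊥ := Nat.find_spec hex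
  have hn0 : n ≠ 0 := by
    intro h0
    rw [h0] at hn1
    exact hnt hn1
  obtain ⟨m, hm⟩ := Nat.exists_eq_succ_of_ne_zero hn0
  have hm1 : derivedSeries H m ≠ ⊥ := Nat.find_min hex (by omega)
  have hmc : ⁅derivedSeries H m, derivedSeries H m⁆ = ⊥ := by
    rw [← derivedSeries_succ, ← Nat.succ_eq_add_one, ← hm]
    exact hn1
  have hnorm : (derivedSeries H m).Normal := derivedSeries_normal H m
  refine ⟨(derivedSeries H m).map H.subtype, ?_, ?_, ?_, ?_⟩
  · rintro x ⟨y, -, rfl⟩
    exact y.2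
  · intro h
    apply hm1
    rw [Subgroup.map_eq_bot_iff_of_injective _ H.subtype_injective] at h
    exact h
  · rintro s hs' a ⟨y, hy, rfl⟩
    refine ⟨⟨s, hs'⟩ * y * ⟨s, hs'⟩⁻¹, hnorm.conj_mem y hy _, rfl⟩
  · rintro a ⟨y, hy, rfl⟩ b ⟨z, hz, rfl⟩
    have h1 := (Subgroup.commutator_eq_bot_iff_le_centralizer.1 hmc) hz
    rw [Subgroup.mem_centralizer_iff] at h1
    exact congrArg Subtype.val (h1 y hy)

theorem range_solvable {G K : Type} [Group G] [Group K] [Group.IsSolvable G] (θ : G →* K) :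
    Group.IsSolvable θ.range := Group.isSolvable_of_surjective θ.rangeRestrict_surjective

/-- a solvable transitive group contains a permutation of prime power order without fixed
points -/
theorem fpf_of_solvable : ∀ (n : ℕ) (Ω : Type) [Fintype Ω] (H : Subgroup (Equiv.Perm Ω))
    [Group.IsSolvable H], Fintype.card Ω = n → 1 < Fintype.card Ω → (∀ x y, ∃ s ∈ H, s x = y) →
    ∃ s ∈ H, ∃ q j : ℕ, q.Prime ∧ s ^ q ^ j = 1 ∧ ∀ x, s x ≠ x := by
  intro n
  induction n using Nat.strong_induction_on with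
  | _ n ih =>
    intro Ω _ H hsol hn h1 htr
    have hne : H ≠ ⊥ := by
      rintro rfl
      obtain ⟨x, y, hxy⟩ := Fintype.exists_pair_of_one_lt_card h1
      obtain ⟨s, hs, h2⟩ := htr x y
      rw [Subgroup.mem_bot] at hs
      rw [hs] at h2
      exact hxy h2
    obtain ⟨A, hAH, hA, hnorm, hcomm⟩ := exists_abelian H hne
    by_cases hAt : ∀ x y, ∃ a ∈ A, a x = y
    · -- regular abelian group
      obtain ⟨⟨a, ha⟩, ha0⟩ := Subgroup.ne_bot_iff_exists_ne_one.1 hA
      have ha1 : a ≠ 1 := fun h => ha0 (Subtype.ext h)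
      have hN1 : orderOf a ≠ 1 := fun h => ha1 (orderOf_eq_one_iff.1 h)
      obtain ⟨q, hq, hqN⟩ := Nat.exists_prime_and_dvd hN1
      have hord : orderOf (a ^ (orderOf a / q)) = q :=
        orderOf_pow_orderOf_div (orderOf_pos a).ne' hqN
      set b := a ^ (orderOf a / q) with hb
      have hbA : b ∈ A := A.pow_mem ha _
      refine ⟨b, hAH hbA, q, 1, hq, ?_, ?_⟩
      · rw [pow_one, ← hord]
        exact pow_orderOf_eq_one b
      · intro x hx
        have hb1 : b = 1 := by
          ext y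
          obtain ⟨c, hc, rfl⟩ := hAt x y
          have h2 := congrArg (fun f : Equiv.Perm Ω => f x) (hcomm b hbA c hc)
          simp only [Equiv.Perm.mul_apply, hx] at h2
          exact h2
        rw [hb1, orderOf_one] at hord
        exact hq.ne_one hord.symm
    · -- intransitive: quotient
      obtain ⟨Ω', _, π, θ, hπ, hrel, hcard, hθ⟩ := quot H A hnorm hA
      have := range_solvable θ
      have h1' : 1 < Fintype.card Ω' := by
        push Not at hAt
        obtain ⟨x, y, hxy⟩ := hAt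
        rw [Fintype.one_lt_card_iff]
        refine ⟨π x, π y, fun h => ?_⟩
        obtain ⟨a, ha, h2⟩ := (hrel x y).1 h
        exact hxy a ha h2
      obtain ⟨s', ⟨s0, rfl⟩, q, j, hq, hpow, hfree⟩ := ih _ (by rw [← hn]; exact hcard) Ω' θ.range
        rfl h1' (by
          intro c d
          obtain ⟨x, rfl⟩ := hπ c
          obtain ⟨y, rfl⟩ := hπ d
          obtain ⟨s, hs, h2⟩ := htr x y
          exact ⟨θ ⟨s, hs⟩, ⟨_, rfl⟩, by rw [hθ, h2]⟩)
      obtain ⟨g, i, hg1, hg2⟩ := lift_pow θ hq s0 hpow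
      refine ⟨g.1, g.2, q, i, hq, by exact_mod_cast congrArg Subtype.val hg1, fun x hx => ?_⟩
      apply hfree (π x)
      rw [← hg2, hθ, hx]

end Pool.Agent.H73.TR
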