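import Pool.Agent.H73.TR.Grp

/-!
A transitive group of degree `m q^a`, `q` prime, `a ≥ 1`, `m < q`, contains a permutation of
`q`-power order without fixed points.
-/

set_option autoImplicit false

open Finset Classical

namespace Pool.Agent.H73.TR

/-- a proper subgroup of a finite `q`-group is contained in a normal subgroup of index `q` -/
theorem exists_max {P : Type} [Group P] [Finite P] {q N : ℕ} [hq : Fact q.Prime]
    (hP : Nat.card P = q ^ N) (K : Subgroup P) (hK : Nat.card K ≠ Nat.card P) :
    ∃ M : Subgroup P, K ≤ M ∧ M.Normal ∧ Nat.card M * q = Nat.card P := by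
  have hKd : Nat.card K ∣ q ^ N := by
    rw [← hP]
    exact Subgroup.card_subgroup_dvd_card K
  obtain ⟨t, ht, hKt⟩ := (Nat.dvd_prime_pow hq.out).1 hKd
  have htN : t < N := by
    rcases lt_or_eq_of_le ht with h | h
    · exact h
    · exfalso
      apply hK
      rw [hKt, hP, h]
  obtain ⟨n, rfl⟩ : ∃ n, N = n + 1 := ⟨N - 1, by omega⟩
  obtain ⟨M, hM1, hM2⟩ := Sylow.exists_subgroup_card_pow_prime_le q (n := t) (m := n)
    (by rw [hP]; exact pow_dvd_pow q (Nat.le_succ n)) K hKt (by omega)
  have hMq : Nat.card M * q = Nat.card P := by rw [hM1, hP, pow_succ]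
  refine ⟨M, hM2, ?_, hMq⟩
  apply Subgroup.normal_of_index_eq_minFac_card
  have h1 := Subgroup.card_mul_index M
  rw [← hMq] at h1
  have h2 : M.index = q := Nat.eq_of_mul_eq_mul_left Nat.card_pos h1
  rw [h2, hP, Nat.Prime.pow_minFac hq.out (Nat.succ_ne_zero n)]

theorem fpf_of_large {Ω : Type} [Fintype Ω] (H : Subgroup (Equiv.Perm Ω))
    (htr : ∀ x y, ∃ s ∈ H, s x = y) {q a : ℕ} (hq : q.Prime) (ha : 0 < a)
    (hdvd : q ^ a ∣ Fintype.card Ω) (hlt : Fintype.card Ω < q ^ (a + 1)) :
    ∃ s ∈ H, ∃ j : ℕ, s ^ q ^ j = 1 ∧ ∀ x, s x ≠ x := by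
  rcases isEmpty_or_nonempty Ω with hemp | hnon
  · exact ⟨1, H.one_mem, 0, by simp, fun x => (hemp.false x).elim⟩
  have hfq : Fact q.Prime := ⟨hq⟩
  obtain ⟨P⟩ : Nonempty (Sylow q H) := inferInstance
  obtain ⟨N, hN⟩ := (IsPGroup.iff_card).1 P.isPGroup'
  -- the order of `H`
  have hH : ∀ x : Ω, Nat.card H = Fintype.card Ω * Nat.card (MulAction.stabilizer H x) := by
    intro x
    rw [Subgroup.card_eq_card_quotient_mul_card_subgroup (MulAction.stabilizer H x),
      ← Nat.card_congr (MulAction.orbitEquivQuotientStabilizer H x)]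
    congr 1
    have : MulAction.orbit H x = Set.univ := by
      rw [Set.eq_univ_iff_forall]
      intro y
      obtain ⟨s, hs, h⟩ := htr x y
      exact ⟨⟨s, hs⟩, h⟩
    rw [this, Nat.card_univ, Nat.card_eq_fintype_card]
  have hsyl : ¬ q ^ (N + 1) ∣ Nat.card H := by
    intro h
    obtain ⟨K, hK1, hK2⟩ := Sylow.exists_subgroup_card_pow_prime_le q (n := N) (m := N + 1) h
      (P : Subgroup H) hN (Nat.le_succ N)
    have h1 : IsPGroup q K := IsPGroup.of_card hK1
    have h2 := P.is_maximal' h1 hK2
    have h3 : Nat.card K = Nat.card P := by rw [h2]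
    rw [hK1, hN] at h3
    exact absurd (Nat.pow_right_injective hq.two_le h3) (by omega)
  -- the orbits of `P`
  have horb : ∀ x : Ω, Nat.card (MulAction.orbit P x) = q ^ a ∧
      Nat.card (MulAction.stabilizer P x) ≠ Nat.card P := by
    intro x
    have h1 : Nat.card P = Nat.card (MulAction.orbit P x) * Nat.card (MulAction.stabilizer P x) := by
      rw [Subgroup.card_eq_card_quotient_mul_card_subgroup (MulAction.stabilizer P x),
        ← Nat.card_congr (MulAction.orbitEquivQuotientStabilizer P x)]
    have h2 : Nat.card (MulAction.stabilizer P x) ∣ q ^ N := by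
      rw [← hN, h1]
      exact Dvd.intro_left _ rfl
    obtain ⟨t, ht, hKt⟩ := (Nat.dvd_prime_pow hq).1 h2
    have h3 : Nat.card (MulAction.stabilizer P x) ∣ Nat.card (MulAction.stabilizer H x) := by
      have h4 : (MulAction.stabilizer P x).map (P : Subgroup H).subtype ≤
          MulAction.stabilizer H x := by
        rintro s ⟨p, hp, rfl⟩
        exact hp
      have h5 := Subgroup.card_dvd_of_le h4
      rwa [Subgroup.card_map_of_injective (P : Subgroup H).subtype_injective] at h5
    have h4 : t + a ≤ N := by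
      by_contra hcon
      push Not at hcon
      apply hsyl
      rw [hH x]
      calc q ^ (N + 1) ∣ q ^ (a + t) := pow_dvd_pow q (by omega)
        _ = q ^ a * q ^ t := pow_add _ _ _
        _ ∣ _ := mul_dvd_mul hdvd (by rw [← hKt]; exact h3)
    have h5 : Nat.card (MulAction.orbit P x) = q ^ (N - t) := by
      rw [hN, hKt] at h1
      have h6 : q ^ N = q ^ (N - t) * q ^ t := by rw [← pow_add]; congr 1; omega
      rw [h6] at h1
      exact (Nat.eq_of_mul_eq_mul_right (pow_pos hq.pos t) h1).symm
    have h6 : Nat.card (MulAction.orbit P x) ≤ Fintype.card Ω := by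
      rw [← Nat.card_eq_fintype_card]
      exact Nat.card_le_card_of_injective _ Subtype.val_injective
    have h7 : N - t < a + 1 := by
      have h8 : q ^ (N - t) < q ^ (a + 1) := by
        rw [← h5]
        exact lt_of_le_of_lt h6 hlt
      exact (Nat.pow_lt_pow_iff_right hq.one_lt).1 h8
    refine ⟨?_, ?_⟩
    · rw [h5]
      congr 1
      omega
    · rw [hKt, hN]
      intro h8
      have := Nat.pow_right_injective hq.two_le h8
      omega
  -- maximal subgroups
  have hM : ∀ x : Ω, ∃ M : Subgroup P, MulAction.stabilizer P x ≤ M ∧ M.Normal ∧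
      Nat.card M * q = Nat.card P := fun x => exists_max hN _ (horb x).2
  choose M hM1 hM2 hM3 using hM
  -- the number of orbits
  let Q := MulAction.orbitRel.Quotient P Ω
  have hQf : Finite Q := Quotient.finite _
  let _ : Fintype Q := Fintype.ofFinite Q
  have hQ : Fintype.card Q * q ^ a = Fintype.card Ω := by
    have h1 := Nat.card_congr (MulAction.selfEquivSigmaOrbits' P Ω)
    rw [Nat.card_sigma] at h1
    rw [← Nat.card_eq_fintype_card (α := Ω), h1]
    have h2 : ∀ ω : Q, Nat.card (MulAction.orbitRel.Quotient.orbit ω) = q ^ a := by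
      intro ω
      induction ω using Quotient.inductionOn' with
      | _ x => exact (horb x).1
    simp only [h2]
    rw [Finset.sum_const, Finset.card_univ, smul_eq_mul]
  have hQq : Fintype.card Q < q := by
    have h1 : Fintype.card Q * q ^ a < q * q ^ a := by
      rw [hQ, ← pow_succ']
      exact hlt
    exact lt_of_mul_lt_mul_right h1 (Nat.zero_le _)
  -- an element outside of the union
  by_contra hcon
  push Not at hcon
  have hfix : ∀ g : (P : Subgroup H), ∃ y : Ω, g • y = y := by
    intro g
    obtain ⟨j, hj⟩ := P.isPGroup' g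
    obtain ⟨y, hy⟩ := hcon (g.1.1) g.1.2 j (by
      have := congrArg (fun u : P => u.1.1) hj
      simpa using this)
    exact ⟨y, hy⟩
  let _ : Fintype P := Fintype.ofFinite P
  have hcov : (univ : Finset P) ⊆ (univ : Finset Q).biUnion
      (fun ω => univ.filter (fun g => g ∈ M ω.out)) := by
    intro g _
    obtain ⟨y, hy⟩ := hfix g
    rw [Finset.mem_biUnion]
    refine ⟨Quotient.mk'' y, Finset.mem_univ _, ?_⟩
    rw [Finset.mem_filter]
    refine ⟨Finset.mem_univ _, ?_⟩
    set x : Ω := (Quotient.mk'' y : Q).out with hx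
    obtain ⟨p, hp⟩ : ∃ p : (P : Subgroup H), p • y = x := by
      have h1 : (Quotient.mk'' x : Q) = Quotient.mk'' y := by
        rw [hx]
        exact Quotient.out_eq' _
      exact Quotient.exact' h1
    have h2 : p * g * p⁻¹ ∈ MulAction.stabilizer P x := by
      rw [MulAction.mem_stabilizer_iff, ← hp, mul_smul, mul_smul, inv_smul_smul, hy]
    have h3 := hM1 x h2
    have h4 := (hM2 x).conj_mem _ h3 p⁻¹
    have h5 : p⁻¹ * (p * g * p⁻¹) * p⁻¹⁻¹ = g := by group
    rwa [h5] at h4
  have hle := (Finset.card_le_card hcov).trans Finset.card_biUnion_le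
  have hc : ∀ ω : Q, (univ.filter (fun g => g ∈ M ω.out)).card * q = Nat.card P := by
    intro ω
    rw [← hM3 ω.out]
    congr 1
    rw [← Fintype.card_subtype, ← Nat.card_eq_fintype_card]
  have h1 : Fintype.card P * q ≤ Fintype.card Q * Nat.card P := by
    calc Fintype.card P * q = (univ : Finset P).card * q := by rw [Finset.card_univ]
      _ ≤ (∑ ω : Q, (univ.filter (fun g => g ∈ M ω.out)).card) * q := Nat.mul_le_mul_right q hle
      _ = ∑ ω : Q, (univ.filter (fun g => g ∈ M ω.out)).card * q := Finset.sum_mul _ _ _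
      _ = ∑ _ω : Q, Nat.card P := Finset.sum_congr rfl fun ω _ => hc ω
      _ = Fintype.card Q * Nat.card P := by rw [Finset.sum_const, Finset.card_univ, smul_eq_mul]
  rw [Nat.card_eq_fintype_card, mul_comm] at h1
  have h2 : 0 < Fintype.card P := Fintype.card_pos
  exact absurd (le_of_mul_le_mul_right h1 h2) (by omega)

end Pool.Agent.H73.TR
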