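import Pool.Agent.H73.TR.DensP
import Pool.Agent.H73.TR.Syl

/-!
Almost all `v`: no nontrivial point-transitive symmetric design.
-/

set_option autoImplicit false

open Finset Filter Topology Classical Pool.Agent.H96.Sing

namespace Pool.Agent.H73.TR

/-- The theorem of Fein, Kantor and Schacher (1981), as a statement: every transitive
permutation group on `n > 1` points contains a permutation without fixed points whose order is a
power of a prime. -/
def FeinKantorSchacher : Prop :=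
  ∀ (n : ℕ) (H : Subgroup (Equiv.Perm (Fin n))), 1 < n → (∀ x y, ∃ s ∈ H, s x = y) →
    ∃ s ∈ H, ∃ q j : ℕ, q.Prime ∧ s ^ q ^ j = 1 ∧ ∀ x, s x ≠ x

theorem dvd_of_free {v : ℕ} (s : Equiv.Perm (Fin v)) {q j : ℕ} (hq : q.Prime)
    (hs : s ^ q ^ j = 1) (hfree : ∀ x, s x ≠ x) : q ∣ v := by
  have hfq : Fact q.Prime := ⟨hq⟩
  have h1 := Equiv.Perm.card_compl_support_modEq (α := Fin v) hs
  have h2 : s.supportᶜ = ∅ := by
    rw [Finset.compl_eq_empty_iff, Finset.eq_univ_iff_forall]
    intro x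
    rw [Equiv.Perm.mem_support]
    exact hfree x
  rw [h2, Finset.card_empty, Fintype.card_fin] at h1
  exact (Nat.modEq_zero_iff_dvd).1 h1.symm

theorem mem_of_free {X v k l : ℕ} {B : Fin v → Finset (Fin v)} (hX : v ≤ X) (hk : 1 < k)
    (hkv : k + 1 < v) (hd : IsSymmetricDesign v k l B) (s : Equiv.Perm (Fin v)) (hs : IsAut B s)
    {q j : ℕ} (hq : q.Prime) (hpow : s ^ q ^ j = 1) (hfree : ∀ x, s x ≠ x) :
    v ∈ evenPowOrders X := by
  obtain ⟨i, hi, hord⟩ := (Nat.dvd_prime_pow hq).1 (orderOf_dvd_of_pow_eq_one hpow)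
  have hv : 0 < v := by omega
  have hi0 : 0 < i := by
    rcases Nat.eq_zero_or_pos i with h | h
    · exfalso
      rw [h, pow_zero, orderOf_eq_one_iff] at hord
      apply hfree ⟨0, hv⟩
      rw [hord]
      rfl
    · exact h
  refine ⟨hX, k, l, B, hk, hkv, hd, s, q, i, hs, hq, dvd_of_free s hq hpow hfree, hi0, hord, ?_⟩
  have h1 : (univ.filter (fun x => s x = x)) = ∅ := by
    rw [Finset.filter_eq_empty_iff]
    intro x _
    exact hfree x
  rw [h1]
  simp

theorem solvable_sub (X : ℕ) : solvableTransitiveOrders X ⊆ evenPowOrders X := by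
  rintro v ⟨hX, k, l, B, hk, hkv, hd, H, hH, htr, hsol⟩
  obtain ⟨s, hs, q, j, hq, hpow, hfree⟩ := fpf_of_solvable v (Fin v) H (Fintype.card_fin v)
    (by rw [Fintype.card_fin]; omega) htr
  exact mem_of_free hX hk hkv hd s (hH s hs) hq hpow hfree

theorem large_sub (X : ℕ) : {v ∈ pointTransitiveOrders X | TopPrimePower v} ⊆
    evenPowOrders X := by
  rintro v ⟨⟨hX, k, l, B, hk, hkv, hd, H, hH, htr⟩, q, a, hq, ha, hdvd, hlt⟩
  obtain ⟨s, hs, j, hpow, hfree⟩ := fpf_of_large H htr hq ha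
    (by rw [Fintype.card_fin]; exact hdvd) (by rw [Fintype.card_fin]; exact hlt)
  exact mem_of_free hX hk hkv hd s (hH s hs) hq hpow hfree

theorem transitive_sub (hF : FeinKantorSchacher) (X : ℕ) :
    pointTransitiveOrders X ⊆ evenPowOrders X := by
  rintro v ⟨hX, k, l, B, hk, hkv, hd, H, hH, htr⟩
  obtain ⟨s, hs, q, j, hq, hpow, hfree⟩ := hF v H (by omega) htr
  exact mem_of_free hX hk hkv hd s (hH s hs) hq hpow hfree

theorem evenPow_finite (X : ℕ) : (evenPowOrders X).Finite :=
  (Set.finite_Iic X).subset fun _ hv => hv.1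

theorem evenPow_density :
    Tendsto (fun X : ℕ => ((evenPowOrders X).ncard : ℝ) / X) atTop (𝓝 0) :=
  Pool.Agent.H24.AN.tendsto_of_small _ (fun X => by positivity) evenPow_small

theorem density_of_sub {S : ℕ → Set ℕ} (h : ∀ X, S X ⊆ evenPowOrders X) :
    Tendsto (fun X : ℕ => ((S X).ncard : ℝ) / X) atTop (𝓝 0) := by
  refine squeeze_zero (fun X => by positivity) (fun X => ?_) evenPow_density
  have h1 := Set.ncard_le_ncard (h X) (evenPow_finite X)
  have h2 : ((S X).ncard : ℝ) ≤ (evenPowOrders X).ncard := by exact_mod_cast h1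
  exact div_le_div_of_nonneg_right h2 (Nat.cast_nonneg X)

end Pool.Agent.H73.TR
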