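import Pool.Agent.H73.TR.DensP

/-!
Almost all `v`: no nontrivial symmetric design on `v` points has an automorphism of order `q^j`
with an even number of fixed points (`q` a fixed odd prime).
-/

set_option autoImplicit false

open Finset Filter Topology Classical Pool.Agent.H96.Sing
open Pool.Agent.H12 (SymmetricDesignExists design_lt)
open Pool.Agent.H70.SymDes (Exc exc_small SquareRatio)
open Pool.Agent.H24.AN (RS RS_small ratio_one ratio_two)

namespace Pool.Agent.H73.TR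

lemma evenFix_sub (q : ℕ) (hq : q.Prime) (hq2 : q ≠ 2) (A X : ℕ) :
    evenPowFixedOrders q X ⊆ ↑((range (X+1)).filter (Exc A) ∪
      ((Icc 1 A) ×ˢ (Icc 1 A)).biUnion (fun x => RS q x.1 x.2 X) : Finset ℕ) := by
  rintro v ⟨hvX, k, l, B, hk, hkv, hd, s', j, hs', -, hord, hev⟩
  rw [mem_coe, mem_union]
  by_cases hexc : Exc A v
  · left
    rw [mem_filter, mem_range]
    exact ⟨by omega, hexc⟩
  right
  have h1 : v % 4 = 3 ∧ SquareRatio A v k := by
    by_contra hcon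
    exact hexc ⟨k, l, hk, hkv, toH12 hd, hcon⟩
  obtain ⟨hv4, s, t, hs, ht, hst, hA, hrat⟩ := h1
  obtain ⟨hlk, hlv⟩ := design_lt (by omega) (toH12 hd)
  have hvodd : Odd v := Nat.odd_iff.mpr (by omega)
  have hno : ∀ p : ℕ, p.Prime → p ≠ q → ¬ IsSquare (p : ZMod q) → ¬ (p ∣ k - l ∧ ¬ p^2 ∣ k - l) :=
    fun p hp hpq hns => no_exact_pow hd hlk hvodd s' hs' q hq hq2 j
      (by rw [← hord]; exact pow_orderOf_eq_one s') hev p hp hns hpq
  have key : ∀ a c x : ℕ, 0 < a → k - l = a^2 * x → ∀ p : ℕ, p.Prime → p ≠ q →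
      ¬ IsSquare (p : ZMod q) → ¬ p ∣ a → ¬ (p ∣ x ∧ ¬ p^2 ∣ x) := by
    rintro a c x ha hax p hp hpq hns hpa ⟨h1, h2⟩
    apply hno p hp hpq hns
    rw [hax]
    refine ⟨Dvd.dvd.mul_left h1 _, fun h3 => h2 ?_⟩
    have hcop : Nat.Coprime (p^2) (a^2) := Nat.Coprime.pow 2 2 ((Nat.Prime.coprime_iff_not_dvd hp).mpr hpa)
    exact hcop.dvd_of_dvd_mul_left h3
  rw [mem_biUnion]
  have hsA : s ≤ A := by nlinarith [sq_nonneg t]
  have htA : t ≤ A := by nlinarith [sq_nonneg s]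
  rcases hrat with hr | hr
  · obtain ⟨x, hx1, hx2⟩ := ratio_two hs hst hk (by omega) hlk hlv hr
    refine ⟨(t, s), ?_, ?_⟩
    · rw [mem_product, mem_Icc, mem_Icc]
      exact ⟨⟨ht, htA⟩, ⟨hs, hsA⟩⟩
    · unfold RS
      rw [mem_filter, mem_range]
      exact ⟨by omega, x, hx2, key t s x ht hx1⟩
  · obtain ⟨x, hx1, hx2⟩ := ratio_one hs hst hk (by omega) hlk hlv hr
    refine ⟨(s, t), ?_, ?_⟩
    · rw [mem_product, mem_Icc, mem_Icc]
      exact ⟨⟨hs, hsA⟩, ⟨ht, htA⟩⟩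
    · unfold RS
      rw [mem_filter, mem_range]
      exact ⟨by omega, x, hx2, key s t x hs hx1⟩

theorem evenFix_small (q : ℕ) (hq : q.Prime) (hq2 : q ≠ 2) (ε : ℝ) (hε : 0 < ε) :
    ∀ᶠ X : ℕ in atTop, ((evenPowFixedOrders q X).ncard : ℝ) ≤ ε * X := by
  obtain ⟨A, hA⟩ := exc_small (ε/2) (by positivity)
  have h1 : ∀ᶠ X : ℕ in atTop, ∀ x ∈ (Icc 1 A) ×ˢ (Icc 1 A),
      ((RS q x.1 x.2 X).card : ℝ) ≤ (ε / (2 * (A^2 + 1))) * X := by
    rw [Filter.eventually_all_finset]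
    intro x hx
    rw [mem_product, mem_Icc, mem_Icc] at hx
    exact RS_small q hq hq2 x.1 x.2 (by omega) (by omega) _ (by positivity)
  filter_upwards [hA, h1] with X hX hX1
  have h2 : (evenPowFixedOrders q X).ncard ≤ ((range (X+1)).filter (Exc A) ∪
      ((Icc 1 A) ×ˢ (Icc 1 A)).biUnion (fun x => RS q x.1 x.2 X) : Finset ℕ).card := by
    rw [← Set.ncard_coe_finset]
    exact Set.ncard_le_ncard (evenFix_sub q hq hq2 A X) (Finset.finite_toSet _)
  have h3 := card_union_le ((range (X+1)).filter (Exc A))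
    (((Icc 1 A) ×ˢ (Icc 1 A)).biUnion (fun x => RS q x.1 x.2 X))
  have h4 : ((((Icc 1 A) ×ˢ (Icc 1 A)).biUnion (fun x => RS q x.1 x.2 X)).card : ℝ) ≤
      ∑ x ∈ (Icc 1 A) ×ˢ (Icc 1 A), ((RS q x.1 x.2 X).card : ℝ) := by
    exact_mod_cast card_biUnion_le
  have h5 : ((((Icc 1 A) ×ˢ (Icc 1 A)).biUnion (fun x => RS q x.1 x.2 X)).card : ℝ) ≤
      ε/2 * X := by
    refine h4.trans ((sum_le_sum hX1).trans ?_)
    rw [sum_const, card_product, Nat.card_Icc, nsmul_eq_mul]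
    have e1 : (((A + 1 - 1) * (A + 1 - 1) : ℕ) : ℝ) = (A:ℝ)^2 := by
      rw [Nat.add_sub_cancel]; push_cast; ring
    rw [e1]
    have e2 : (A:ℝ)^2 * (ε / (2 * ((A:ℝ)^2 + 1)) * X) = ((A:ℝ)^2 / ((A:ℝ)^2 + 1)) * (ε/2 * X) := by
      field_simp
    rw [e2]
    have e3 : (A:ℝ)^2 / ((A:ℝ)^2 + 1) ≤ 1 := by
      rw [div_le_one (by positivity)]; linarith
    have e4 : 0 ≤ ε/2 * X := by positivity
    nlinarith
  have h6 : ((evenPowFixedOrders q X).ncard : ℝ) ≤ ((range (X+1)).filter (Exc A)).card +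
      (((Icc 1 A) ×ˢ (Icc 1 A)).biUnion (fun x => RS q x.1 x.2 X)).card := by
    exact_mod_cast h2.trans h3
  linarith

theorem evenFix_density (q : ℕ) (hq : q.Prime) (hq2 : q ≠ 2) :
    Tendsto (fun X : ℕ => ((evenPowFixedOrders q X).ncard : ℝ) / X) atTop (𝓝 0) :=
  Pool.Agent.H24.AN.tendsto_of_small _ (fun X => by positivity)
    (fun ε hε => evenFix_small q hq hq2 ε hε)

end Pool.Agent.H73.TR
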