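import Pool.Agent.H73.TR.Par
import Pool.Agent.H96.Sing.Det

/-!
The product formula for the orbit matrices of an invariant relation.
-/

set_option autoImplicit false
set_option linter.unusedSectionVars false

open Finset Classical

namespace Pool.Agent.H73.TR

variable {G X Y I J : Type} [Group G] [Fintype X] [Fintype Y] [Fintype I] [Fintype J] {q : ℕ}
  [hq : Fact q.Prime]

/-- the orbit matrix, with entries functions on `ZMod q` -/
noncomputable def aa (r : I → X) (o' : Y → Option J) (κ' : Y → ZMod q) (N : X → Y → Prop)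
    (i : I) (b : J) (c : ZMod q) : ℤ :=
  ∑ y, if o' y = some b ∧ κ' y = -c ∧ N (r i) y then (1:ℤ) else 0

theorem periodic (f : ZMod q → ℤ) {t : ZMod q} (ht : t ≠ 0) (h : ∀ c, f (c + t) = f c)
    (c : ZMod q) : f c = f 0 := by
  have h1 : ∀ m : ℕ, f ((m : ZMod q) * t) = f 0 := by
    intro m
    induction m with
    | zero => simp
    | succ m ih =>
      have h2 : ((m + 1 : ℕ) : ZMod q) * t = (m : ZMod q) * t + t := by push_cast; ring
      rw [h2, h, ih]
  have h3 := h1 (c * t⁻¹).val
  rw [ZMod.natCast_zmod_val, mul_assoc, inv_mul_cancel₀ ht, mul_one] at h3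
  exact h3

/-- the number of good points of the orbit `i`, of class `c`, related to `y` -/
noncomputable def TT (o : X → Option I) (κ : X → ZMod q) (N : X → Y → Prop) (i : I) (y : Y)
    (c : ZMod q) : ℤ :=
  ∑ x, if o x = some i ∧ κ x = c ∧ N x y then (1:ℤ) else 0

theorem TT_smul {φ : G →* Equiv.Perm X} {ψ : G →* Equiv.Perm Y} {χ : G → ZMod q}
    {r : I → X} {o : X → Option I} {κ : X → ZMod q} (P : Par φ χ I r o κ) {N : X → Y → Prop}
    (hN : ∀ g x y, N (φ g x) (ψ g y) ↔ N x y) (i : I) (g : G) (y : Y) (c : ZMod q) :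
    TT o κ N i (ψ g y) (c + χ g) = TT o κ N i y c := by
  unfold TT
  rw [← Equiv.sum_comp (φ g)]
  refine Finset.sum_congr rfl fun x _ => ?_
  have h1 : (o (φ g x) = some i ∧ κ (φ g x) = c + χ g ∧ N (φ g x) (ψ g y)) ↔
      (o x = some i ∧ κ x = c ∧ N x y) := by
    rw [P.og, hN]
    constructor
    · rintro ⟨h1, h2, h3⟩
      rw [P.kg g x (by rw [h1]; simp)] at h2
      exact ⟨h1, add_right_cancel h2, h3⟩
    · rintro ⟨h1, h2, h3⟩
      refine ⟨h1, ?_, h3⟩
      rw [P.kg g x (by rw [h1]; simp), h2]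
  simp only [h1]

theorem aa_swap (r' : J → Y) (o : X → Option I) (κ : X → ZMod q) (N : X → Y → Prop)
    (b : J) (i : I) (c : ZMod q) : aa r' o κ (fun y x => N x y) b i c = TT o κ N i (r' b) (-c) :=
  rfl

theorem claimA {φ : G →* Equiv.Perm X} {ψ : G →* Equiv.Perm Y} {χ : G → ZMod q}
    (hne : ∃ g, χ g ≠ 0)
    {r : I → X} {o : X → Option I} {κ : X → ZMod q} (P : Par φ χ I r o κ)
    {r' : J → Y} {o' : Y → Option J} {κ' : Y → ZMod q} (P' : Par ψ χ J r' o' κ')
    {N : X → Y → Prop} (hN : ∀ g x y, N (φ g x) (ψ g y) ↔ N x y) (n l : ℤ)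
    (hrow : ∀ x x', ∑ y, (if N x y ∧ N x' y then (1:ℤ) else 0) = if x = x' then n + l else l) :
    ∃ c : I → I → ℤ, ∀ i i' j, ∑ b : J, ∑ s : ZMod q, aa r o' κ' N i b (j + s) *
      aa r' o κ (fun y x => N x y) b i' (-s) = (if i = i' ∧ j = 0 then n else 0) + c i i' := by
  refine ⟨fun i i' => l * (∑ x, if o x = some i' ∧ κ x = 0 then (1:ℤ) else 0) -
    ∑ y, (if o' y = none ∧ N (r i) y then (1:ℤ) else 0) * TT o κ N i' y 0, ?_⟩
  intro i i' j
  -- one term
  have h1 : ∀ (b : J) (s : ZMod q), aa r o' κ' N i b (j + s) *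
      aa r' o κ (fun y x => N x y) b i' (-s) =
      ∑ y, (if o' y = some b ∧ κ' y = -(j + s) ∧ N (r i) y then (1:ℤ) else 0) *
        TT o κ N i' y (-j) := by
    intro b s
    rw [aa_swap r' o κ N b i' (-s), neg_neg]
    unfold aa
    rw [Finset.sum_mul]
    refine Finset.sum_congr rfl fun y _ => ?_
    split_ifs with h
    · obtain ⟨h2, h3, h4⟩ := h
      obtain ⟨g, hg⟩ := P'.tr y b h2
      have h5 : κ' y = χ g := by
        rw [← hg, P'.kg g (r' b) (by rw [P'.or']; simp), P'.kr, zero_add]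
      have h6 : TT o κ N i' y (-j) = TT o κ N i' (r' b) s := by
        have h7 := TT_smul P hN i' g (r' b) s
        rw [hg] at h7
        rw [← h7]
        congr 1
        rw [← h5, h3]
        ring
      rw [h6]
    · simp
  simp only [h1]
  -- collapse of the sums over `b` and `s`
  have h2 : ∑ b : J, ∑ s : ZMod q,
      ∑ y, (if o' y = some b ∧ κ' y = -(j + s) ∧ N (r i) y then (1:ℤ) else 0) *
        TT o κ N i' y (-j) =
      ∑ y, (if o' y ≠ none ∧ N (r i) y then (1:ℤ) else 0) * TT o κ N i' y (-j) := by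
    have e1 : ∑ b : J, ∑ s : ZMod q,
        ∑ y, (if o' y = some b ∧ κ' y = -(j + s) ∧ N (r i) y then (1:ℤ) else 0) *
          TT o κ N i' y (-j) =
        ∑ b : J, ∑ y, ∑ s : ZMod q,
        (if o' y = some b ∧ κ' y = -(j + s) ∧ N (r i) y then (1:ℤ) else 0) *
          TT o κ N i' y (-j) := Finset.sum_congr rfl fun b _ => Finset.sum_comm
    rw [e1, Finset.sum_comm]
    refine Finset.sum_congr rfl fun y _ => ?_
    simp only [← Finset.sum_mul]
    congr 1
    rcases hy : o' y with _ | b0
    · simp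
    · rw [Finset.sum_eq_single b0]
      · rw [Finset.sum_eq_single (-κ' y - j)]
        · have h3 : κ' y = -(j + (-κ' y - j)) := by ring
          simp
        · intro s _ hs
          rw [if_neg]
          rintro ⟨_, h3, _⟩
          apply hs
          rw [h3]; ring
        · intro h; exact absurd (Finset.mem_univ _) h
      · intro b _ hb
        refine Finset.sum_eq_zero fun s _ => ?_
        rw [if_neg]
        rintro ⟨h3, _⟩
        exact hb (Option.some.inj h3).symm
      · intro h; exact absurd (Finset.mem_univ _) h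
  rw [h2]
  have h3 : ∀ y, (if o' y ≠ none ∧ N (r i) y then (1:ℤ) else 0) =
      (if N (r i) y then (1:ℤ) else 0) - (if o' y = none ∧ N (r i) y then (1:ℤ) else 0) := by
    intro y
    by_cases e1 : o' y = none <;> by_cases e2 : N (r i) y <;> simp [e1, e2]
  simp only [h3, sub_mul, Finset.sum_sub_distrib]
  -- bad points
  have h4 : ∑ y, (if o' y = none ∧ N (r i) y then (1:ℤ) else 0) * TT o κ N i' y (-j) =
      ∑ y, (if o' y = none ∧ N (r i) y then (1:ℤ) else 0) * TT o κ N i' y 0 := by
    refine Finset.sum_congr rfl fun y _ => ?_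
    by_cases hy : o' y = none
    · congr 1
      have hbad : ¬ Gd ψ χ y := fun hg => (P'.gd y).2 hg hy
      unfold Gd at hbad
      push Not at hbad
      obtain ⟨g, hg1, hg2⟩ := hbad
      refine periodic (fun c => TT o κ N i' y c) hg2 (fun c => ?_) (-j)
      have h5 := TT_smul P hN i' g y c
      rw [hg1] at h5
      exact h5
    · simp [hy]
  rw [h4]
  -- all points
  have h5 : ∑ y, (if N (r i) y then (1:ℤ) else 0) * TT o κ N i' y (-j) =
      ∑ x, (if o x = some i' ∧ κ x = -j then (1:ℤ) else 0) * (if r i = x then n + l else l) := by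
    simp only [← hrow]
    unfold TT
    simp only [Finset.mul_sum]
    rw [Finset.sum_comm]
    refine Finset.sum_congr rfl fun x _ => Finset.sum_congr rfl fun y _ => ?_
    by_cases e1 : N (r i) y <;> by_cases e2 : N x y <;> by_cases e3 : o x = some i' <;>
      by_cases e4 : κ x = -j <;> simp [e1, e2, e3, e4]
  rw [h5]
  have h6 : ∀ x, (if o x = some i' ∧ κ x = -j then (1:ℤ) else 0) * (if r i = x then n + l else l) =
      l * (if o x = some i' ∧ κ x = -j then (1:ℤ) else 0) +
      (if r i = x then (if o x = some i' ∧ κ x = -j then n else 0) else 0) := by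
    intro x
    by_cases e1 : r i = x <;> by_cases e2 : (o x = some i' ∧ κ x = -j) <;> simp [e1, e2]
    ring
  simp only [h6, Finset.sum_add_distrib, ← Finset.mul_sum]
  rw [Finset.sum_ite_eq univ (r i), if_pos (Finset.mem_univ _), P.or', P.kr]
  have h7 : (∑ x, if o x = some i' ∧ κ x = -j then (1:ℤ) else 0) =
      ∑ x, if o x = some i' ∧ κ x = 0 then (1:ℤ) else 0 := by
    obtain ⟨g, hg⟩ := hne
    refine periodic (fun c => ∑ x, if o x = some i' ∧ κ x = c then (1:ℤ) else 0) hg
      (fun c => ?_) (-j)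
    rw [← Equiv.sum_comp (φ g)]
    refine Finset.sum_congr rfl fun x _ => ?_
    have e1 : (o (φ g x) = some i' ∧ κ (φ g x) = c + χ g) ↔ (o x = some i' ∧ κ x = c) := by
      rw [P.og]
      constructor
      · rintro ⟨e1, e2⟩
        rw [P.kg g x (by rw [e1]; simp)] at e2
        exact ⟨e1, add_right_cancel e2⟩
      · rintro ⟨e1, e2⟩
        refine ⟨e1, ?_⟩
        rw [P.kg g x (by rw [e1]; simp), e2]
    simp only [e1]
  rw [h7]
  have h8 : (some i = some i' ∧ (0 : ZMod q) = -j) ↔ (i = i' ∧ j = 0) := by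
    rw [Option.some.injEq, eq_comm (a := (0 : ZMod q)), neg_eq_zero]
  simp only [h8]
  ring

end Pool.Agent.H73.TR
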