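import Pool.Agent.H73.TR.LocA

/-!
The orbit matrices of an invariant relation: transposition, sizes of the orbits, number of orbits.
-/

set_option autoImplicit false
set_option linter.unusedSectionVars false

open Finset Classical

namespace Pool.Agent.H73.TR

variable {G X Y I J : Type} [Group G] [Fintype X] [Fintype Y] [Fintype I] [Fintype J] {q : ℕ}
  [hq : Fact q.Prime]

/-- the size of the orbit `i` -/
noncomputable def osz (o : X → Option I) (i : I) : ℤ := ∑ x, if o x = some i then (1:ℤ) else 0

theorem TT_rep {φ : G →* Equiv.Perm X} {ψ : G →* Equiv.Perm Y} {χ : G → ZMod q}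
    {r : I → X} {o : X → Option I} {κ : X → ZMod q} (P : Par φ χ I r o κ)
    {r' : J → Y} {o' : Y → Option J} {κ' : Y → ZMod q} (P' : Par ψ χ J r' o' κ')
    {N : X → Y → Prop} (hN : ∀ g x y, N (φ g x) (ψ g y) ↔ N x y) (i : I) (b : J) (c : ZMod q)
    (y : Y) (hy : o' y = some b) : TT o κ N i y (κ' y + c) = TT o κ N i (r' b) c := by
  obtain ⟨g, hg⟩ := P'.tr y b hy
  have h5 : κ' y = χ g := by
    rw [← hg, P'.kg g (r' b) (by rw [P'.or']; simp), P'.kr, zero_add]
  have h7 := TT_smul P hN i g (r' b) c
  rw [hg] at h7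
  rw [← h7, h5, add_comm]

theorem claimB {φ : G →* Equiv.Perm X} {ψ : G →* Equiv.Perm Y} {χ : G → ZMod q}
    {r : I → X} {o : X → Option I} {κ : X → ZMod q} (P : Par φ χ I r o κ)
    {r' : J → Y} {o' : Y → Option J} {κ' : Y → ZMod q} (P' : Par ψ χ J r' o' κ')
    {N : X → Y → Prop} (hN : ∀ g x y, N (φ g x) (ψ g y) ↔ N x y) (i : I) (b : J) (c : ZMod q) :
    osz o i * aa r o' κ' N i b c = osz o' b * aa r' o κ (fun y x => N x y) b i (-c) := by
  have h1 : osz o i * aa r o' κ' N i b c = ∑ x, ∑ y,
      (if o x = some i ∧ o' y = some b ∧ κ x = κ' y + c ∧ N x y then (1:ℤ) else 0) := by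
    unfold osz
    rw [Finset.sum_mul]
    refine Finset.sum_congr rfl fun x _ => ?_
    by_cases hx : o x = some i
    · have h2 : aa r o' κ' N i b c = TT o' κ' (fun y x => N x y) b (r i) (-c) := rfl
      have h3 := TT_rep P' P (N := fun y x => N x y) (fun g y x => hN g x y) b i (-c) x hx
      rw [h2, ← h3, if_pos hx, one_mul]
      unfold TT
      refine Finset.sum_congr rfl fun y _ => ?_
      have h4 : (κ' y = κ x + -c) ↔ (κ x = κ' y + c) := by
        constructor
        · intro h; rw [h]; ring
        · intro h; rw [h]; ring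
      simp only [h4, hx, true_and]
    · simp [hx]
  have h2 : osz o' b * aa r' o κ (fun y x => N x y) b i (-c) = ∑ y, ∑ x,
      (if o x = some i ∧ o' y = some b ∧ κ x = κ' y + c ∧ N x y then (1:ℤ) else 0) := by
    unfold osz
    rw [Finset.sum_mul]
    refine Finset.sum_congr rfl fun y _ => ?_
    by_cases hy : o' y = some b
    · have h2 : aa r' o κ (fun y x => N x y) b i (-c) = TT o κ N i (r' b) (- -c) := rfl
      have h3 := TT_rep P P' hN i b c y hy
      rw [h2, neg_neg, ← h3, if_pos hy, one_mul]
      unfold TT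
      refine Finset.sum_congr rfl fun x _ => ?_
      simp only [hy, true_and]
    · simp [hy]
  rw [h1, h2, Finset.sum_comm]

theorem claimC [Finite G] {φ : G →* Equiv.Perm X} {χ : G → ZMod q}
    {r : I → X} {o : X → Option I} {κ : X → ZMod q} (P : Par φ χ I r o κ) (i : I) :
    ∃ n : ℕ, osz o i = n ∧ n ∣ Nat.card G := by
  let _ : MulAction G X := MulAction.compHom X φ
  refine ⟨Nat.card (MulAction.orbit G (r i)), ?_, ?_⟩
  · unfold osz
    rw [Finset.sum_boole, Nat.card_eq_fintype_card, ← Set.toFinset_card]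
    congr 2
    ext x
    simp only [Finset.mem_filter, Finset.mem_univ, true_and, Set.mem_toFinset]
    constructor
    · intro hx
      obtain ⟨g, hg⟩ := P.tr x i hx
      exact ⟨g, hg⟩
    · rintro ⟨g, rfl⟩
      change o (φ g (r i)) = some i
      rw [P.og, P.or']
  · rw [Nat.card_congr (MulAction.orbitEquivQuotientStabilizer G (r i))]
    exact Dvd.intro _ (Subgroup.card_eq_card_quotient_mul_card_subgroup
      (MulAction.stabilizer G (r i))).symm

end Pool.Agent.H73.TR
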