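import Pool.Agent.H73.TR.LocB

/-!
Determinants and ranks of the orbit matrices.
-/

set_option autoImplicit false
set_option linter.unusedSectionVars false

open Finset Classical Pool.Agent.H96.Sing

namespace Pool.Agent.H73.TR

variable {I J : Type} [Fintype I] [Fintype J] {q : ℕ} [hq : Fact q.Prime]

theorem rank_le (n : ℤ) (hn : n ≠ 0) (a : I → J → ZMod q → ℤ) (a' : J → I → ZMod q → ℤ)
    (c : I → I → ℤ) (h : ∀ i i' j, ∑ b, ∑ s, a i b (j + s) * a' b i' (-s) =
      (if i = i' ∧ j = 0 then n else 0) + c i i') : Fintype.card I ≤ Fintype.card J := by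
  set χ : AddChar (ZMod q) ℂ := ZMod.stdAddChar with hχ
  have hsum : ∑ j, χ j = 0 := by
    have h1 : χ ≠ 1 := by
      intro h1
      have h2 := (ZMod.isPrimitive_stdAddChar q) (a := 1) one_ne_zero
      apply h2
      rw [AddChar.mulShift_one]
      exact h1
    exact AddChar.sum_eq_zero_of_ne_one h1
  let M : Matrix I J ℂ := fun i b => ∑ s, (a i b s : ℂ) * χ s
  let M' : Matrix J I ℂ := fun b i => ∑ s, (a' b i s : ℂ) * χ s
  have hprod : M * M' = (n : ℂ) • (1 : Matrix I I ℂ) := by
    ext i i'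
    rw [Matrix.mul_apply, Matrix.smul_apply, Matrix.one_apply, smul_eq_mul]
    have h1 : ∀ b, M i b * M' b i' = ∑ j, χ j * ∑ s, (a i b (j + s) : ℂ) * (a' b i' (-s) : ℂ) := by
      intro b
      simp only [M, M']
      have e1 : ∑ s, (a' b i' s : ℂ) * χ s = ∑ s, (a' b i' (-s) : ℂ) * χ (-s) :=
        (Fintype.sum_equiv (Equiv.neg _) _ _ fun s => rfl).symm
      rw [e1, Finset.sum_mul_sum, Finset.sum_comm]
      have e2 : ∀ t, ∑ s, (a i b s : ℂ) * χ s * ((a' b i' (-t) : ℂ) * χ (-t)) =
          ∑ j, (a i b (j + t) : ℂ) * χ (j + t) * ((a' b i' (-t) : ℂ) * χ (-t)) := by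
        intro t
        exact (Fintype.sum_equiv (Equiv.addRight t) _ _ fun s => rfl).symm
      simp only [e2]
      rw [Finset.sum_comm]
      refine Finset.sum_congr rfl fun j _ => ?_
      rw [Finset.mul_sum]
      refine Finset.sum_congr rfl fun t _ => ?_
      have e3 : χ (j + t) * χ (-t) = χ j := by
        rw [← AddChar.map_add_eq_mul]
        congr 1
        ring
      calc _ = (χ (j + t) * χ (-t)) * ((a i b (j + t) : ℂ) * (a' b i' (-t) : ℂ)) := by ring
        _ = _ := by rw [e3]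
    simp only [h1]
    rw [Finset.sum_comm]
    simp only [← Finset.mul_sum]
    have h2 : ∀ j, ∑ b, ∑ s, (a i b (j + s) : ℂ) * (a' b i' (-s) : ℂ) =
        (if i = i' ∧ j = 0 then (n:ℂ) else 0) + c i i' := by
      intro j
      have := congrArg (fun x : ℤ => (x : ℂ)) (h i i' j)
      push_cast at this
      exact this
    simp only [h2, mul_add, Finset.sum_add_distrib, ← Finset.sum_mul, hsum, zero_mul, add_zero]
    rw [Finset.sum_eq_single 0]
    · simp
    · intro j _ hj
      simp [hj]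
    · intro h3
      exact absurd (Finset.mem_univ _) h3
  have hnC : (n : ℂ) ≠ 0 := by exact_mod_cast hn
  have hunit : IsUnit ((n : ℂ) • (1 : Matrix I I ℂ)) := by
    rw [Matrix.isUnit_iff_isUnit_det, Matrix.det_smul, Matrix.det_one, mul_one]
    exact (isUnit_iff_ne_zero.2 hnC).pow _
  have hr := Matrix.rank_of_isUnit _ hunit
  rw [← hprod] at hr
  calc Fintype.card I = (M * M').rank := hr.symm
    _ ≤ M.rank := Matrix.rank_mul_le_left _ _
    _ ≤ Fintype.card J := Matrix.rank_le_card_width _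

theorem rev_rev (x : AddMonoidAlgebra ℤ (ZMod q)) : rev (rev x) = x := by
  rw [← A_surj x, rev_A, rev_A]
  simp

theorem A_smul (m : ℤ) (g : ZMod q → ℤ) :
    A (fun x => m * g x) = (m : AddMonoidAlgebra ℤ (ZMod q)) * A g := by
  unfold A
  rw [Finset.mul_sum]
  refine Finset.sum_congr rfl fun i _ => ?_
  rw [← zsmul_eq_mul, AddMonoidAlgebra.smul_single, smul_eq_mul]

theorem det_two (a a' : I → I → ZMod q → ℤ) (n : ℤ) (c : I → I → ℤ)
    (h : ∀ i i' j, ∑ b, ∑ s, a i b (j + s) * a' b i' (-s) =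
      (if i = i' ∧ j = 0 then n else 0) + c i i') (α β : I → ℤ)
    (hαβ : ∀ i b x, α i * a i b x = β b * a' b i (-x)) :
    ∃ (F : ZMod q → ℤ) (μ : ℤ), ∀ j, ∑ i, F (j + i) * F i =
      (if j = 0 then (∏ i, α i) * (∏ i, β i) * n ^ (Fintype.card I) else 0) + μ := by
  set M : Matrix I I (AddMonoidAlgebra ℤ (ZMod q)) := fun i b => A (a i b) with hM
  set M' : Matrix I I (AddMonoidAlgebra ℤ (ZMod q)) := fun b i => A (a' b i) with hM'
  set π := Ideal.Quotient.mk (Ideal.span {(T : AddMonoidAlgebra ℤ (ZMod q))}) with hπ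
  let R : Matrix I I (AddMonoidAlgebra ℤ (ZMod q)) := fun i i' =>
    (if i = i' then (n : AddMonoidAlgebra ℤ (ZMod q)) else 0) +
        (c i i' : AddMonoidAlgebra ℤ (ZMod q)) * T
  have hR : ∀ i i', R i i' = (if i = i' then (n : AddMonoidAlgebra ℤ (ZMod q)) else 0) +
        (c i i' : AddMonoidAlgebra ℤ (ZMod q)) * T := fun _ _ => rfl
  have hprod : M * M' = R := by
    ext1 i i'
    rw [Matrix.mul_apply, hR]
    have e1 : ∀ b, M i b * M' b i' = A (fun j => ∑ s, a i b (j + s) * a' b i' (-s)) := by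
      intro b
      rw [← A_mul_rev (a i b) (fun s => a' b i' (-s))]
      simp only [hM, hM', neg_neg]
    simp only [e1]
    rw [← A_delta n (c i i') (i = i')]
    simp only [← h]
    unfold A
    rw [sum_comm]
    refine sum_congr rfl fun j _ => ?_
    simp only [← AddMonoidAlgebra.singleAddHom_apply]
    rw [map_sum]
  have hdet : π (M.det * M'.det) = π ((n : AddMonoidAlgebra ℤ (ZMod q)) ^ (Fintype.card I)) := by
    rw [← Matrix.det_mul, hprod, RingHom.map_det]
    have h2 : π.mapMatrix R = Matrix.diagonal (fun _ => π n) := by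
      ext1 i i'
      rw [RingHom.mapMatrix_apply, Matrix.map_apply, hR, map_add, map_mul]
      have h3 : π T = 0 := Ideal.Quotient.eq_zero_iff_mem.mpr (Ideal.subset_span rfl)
      rw [h3, mul_zero, add_zero, Matrix.diagonal_apply]
      split_ifs <;> simp
    rw [h2, Matrix.det_diagonal, prod_const, card_univ, map_pow]
  rw [Ideal.Quotient.eq, Ideal.mem_span_singleton'] at hdet
  obtain ⟨s, hs⟩ := hdet
  -- transposition
  set a0 : AddMonoidAlgebra ℤ (ZMod q) := ((∏ i, α i : ℤ) : AddMonoidAlgebra ℤ (ZMod q)) with ha0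
  set b0 : AddMonoidAlgebra ℤ (ZMod q) := ((∏ i, β i : ℤ) : AddMonoidAlgebra ℤ (ZMod q)) with hb0
  have htr : a0 * M.det = b0 * rev M'.det := by
    have e1 : Matrix.diagonal (fun i => ((α i : ℤ) : AddMonoidAlgebra ℤ (ZMod q))) * M =
        (rev.mapMatrix M').transpose *
          Matrix.diagonal (fun i => ((β i : ℤ) : AddMonoidAlgebra ℤ (ZMod q))) := by
      ext1 i b
      rw [Matrix.diagonal_mul, Matrix.mul_diagonal, Matrix.transpose_apply,
        RingHom.mapMatrix_apply, Matrix.map_apply]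
      simp only [hM, hM', rev_A]
      rw [mul_comm (A fun i_1 => a' b i (-i_1)), ← A_smul, ← A_smul]
      congr 1
      funext x
      exact hαβ i b x
    have e2 := congrArg Matrix.det e1
    rw [Matrix.det_mul, Matrix.det_mul, Matrix.det_diagonal, Matrix.det_diagonal,
      Matrix.det_transpose, ← RingHom.map_det] at e2
    rw [ha0, hb0, Int.cast_prod, Int.cast_prod, e2, mul_comm]
  have htr' : a0 * rev M.det = b0 * M'.det := by
    have e1 := congrArg rev htr
    rw [map_mul, map_mul, rev_rev] at e1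
    simpa [ha0, hb0] using e1
  refine ⟨fun i => (a0 * M.det).coeff i, (∏ i, α i) * (∏ i, β i) * ∑ i, s.coeff i, fun j => ?_⟩
  have h4 : (a0 * M.det) * rev (a0 * M.det) =
      A (fun j => ∑ i, (a0 * M.det).coeff (j + i) * (a0 * M.det).coeff i) := by
    rw [← A_mul_rev (fun i => (a0 * M.det).coeff i) (fun i => (a0 * M.det).coeff i), A_surj]
    congr 1
    conv_lhs => rw [← A_surj (a0 * M.det)]
    rw [rev_A]
  have hra : rev a0 = a0 := by simp [ha0]
  have h5 : (a0 * M.det) * rev (a0 * M.det) =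
      (((∏ i, α i) * (∏ i, β i) * n ^ (Fintype.card I) : ℤ) : AddMonoidAlgebra ℤ (ZMod q)) +
      ((((∏ i, α i) * (∏ i, β i) : ℤ) : AddMonoidAlgebra ℤ (ZMod q)) * s) * T := by
    rw [map_mul, hra]
    have e1 : a0 * M.det * (a0 * rev M.det) = a0 * b0 * (M.det * M'.det) := by
      rw [htr']; ring
    rw [e1]
    have e2 : M.det * M'.det = (n : AddMonoidAlgebra ℤ (ZMod q)) ^ (Fintype.card I) + s * T := by
      rw [hs]; ring
    rw [e2]
    push_cast [ha0, hb0]
    ring
  have h6 := congrArg (fun x : AddMonoidAlgebra ℤ (ZMod q) => x.coeff j) (h4.symm.trans h5)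
  simp only [A_coeff, AddMonoidAlgebra.coeff_add, Finsupp.add_apply, mul_T_coeff] at h6
  rw [h6, intCast_coeff]
  congr 1
  have h7 : ∀ i, ((((∏ i, α i) * (∏ i, β i) : ℤ) : AddMonoidAlgebra ℤ (ZMod q)) * s).coeff i =
      ((∏ i, α i) * (∏ i, β i)) * s.coeff i := by
    intro i
    rw [← zsmul_eq_mul]
    simp only [AddMonoidAlgebra.coeff_smul, Finsupp.smul_apply, smul_eq_mul]
  simp only [h7, ← Finset.mul_sum]

end Pool.Agent.H73.TR
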