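import Pool.Agent.H73.TR.LocD
import Pool.Agent.H96.Sing.Key

/-!
The local condition for a group of prime power order acting on a symmetric design.
-/

set_option autoImplicit false
set_option linter.unusedSectionVars false

open Finset Classical Pool.Agent.H96.Sing

namespace Pool.Agent.H73.TR

theorem padic_prod {I : Type} [Fintype I] {p : ℕ} [hp : Fact p.Prime] (f : I → ℤ)
    (h : ∀ i, f i ≠ 0 ∧ padicValInt p (f i) = 0) :
    (∏ i, f i) ≠ 0 ∧ padicValInt p (∏ i, f i) = 0 := by
  have key : ∀ s : Finset I, (∏ i ∈ s, f i) ≠ 0 ∧ padicValInt p (∏ i ∈ s, f i) = 0 := by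
    intro s
    induction s using Finset.induction_on with
    | empty => simp
    | insert a s ha ih =>
      rw [Finset.prod_insert ha]
      refine ⟨mul_ne_zero (h a).1 ih.1, ?_⟩
      rw [padicValInt.mul (h a).1 ih.1, (h a).2, ih.2]
  exact key univ

/-- the local condition -/
theorem LC {G X Y : Type} [Group G] [Finite G] [Fintype X] [Fintype Y] {q : ℕ}
    [hq : Fact q.Prime] (h2q : 2 < q) {j : ℕ} (hG : Nat.card G = q ^ j) (φ : G →* Equiv.Perm X)
    (ψ : G →* Equiv.Perm Y) (χ : G → ZMod q) (hχ : ∀ a b, χ (a * b) = χ a + χ b)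
    (hne : ∃ g, χ g ≠ 0) (N : X → Y → Prop) (hN : ∀ g x y, N (φ g x) (ψ g y) ↔ N x y) (n l : ℤ)
    (hn : n ≠ 0)
    (hrow : ∀ x x', ∑ y, (if N x y ∧ N x' y then (1:ℤ) else 0) = if x = x' then n + l else l)
    (hcol : ∀ y y', ∑ x, (if N x y ∧ N x y' then (1:ℤ) else 0) = if y = y' then n + l else l)
    (hodd : Odd (univ.filter (fun x => Gd φ χ x)).card)
    (p : ℕ) [hp : Fact p.Prime] (hpq : p ≠ q) (m : ℕ) (hm : (p:ZMod q)^m = -1) :
    Even (padicValInt p n) := by
  obtain ⟨I, _, r, o, κ, P⟩ := exists_par φ χ hχ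
  obtain ⟨J, _, r', o', κ', P'⟩ := exists_par ψ χ hχ
  obtain ⟨c, hA⟩ := claimA hne P P' hN n l hrow
  obtain ⟨c', hA'⟩ := claimA hne P' P (N := fun y x => N x y) (fun g y x => hN g x y) n l hcol
  have hIJ := rank_le n hn (aa r o' κ' N) (aa r' o κ (fun y x => N x y)) c hA
  have hJI := rank_le n hn (aa r' o κ (fun y x => N x y)) (aa r o' κ' N) c' hA'
  obtain ⟨w⟩ : Nonempty (I ≃ J) := ⟨Fintype.equivOfCardEq (le_antisymm hIJ hJI)⟩
  obtain ⟨F, μ, hF⟩ := det_two (fun i b => aa r o' κ' N i (w b))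
    (fun b i => aa r' o κ (fun y x => N x y) (w b) i) n c (by
      intro i i' j
      rw [← hA i i' j]
      exact Fintype.sum_equiv w _ _ fun b => rfl)
    (fun i => osz o i) (fun b => osz o' (w b)) (by
      intro i b x
      exact claimB P P' hN i (w b) x)
  -- the sizes of the orbits
  have hsz : ∀ (m : ℕ), m ∣ Nat.card G → m ≠ 0 ∧ Odd m ∧ padicValNat p m = 0 := by
    intro m hm
    rw [hG] at hm
    obtain ⟨e, he, rfl⟩ := (Nat.dvd_prime_pow hq.out).1 hm
    refine ⟨(pow_pos hq.out.pos e).ne', (hq.out.odd_of_ne_two (by omega)).pow, ?_⟩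
    apply padicValNat.eq_zero_of_not_dvd
    intro h1
    exact hpq ((Nat.prime_dvd_prime_iff_eq hp.out hq.out).1 (hp.out.dvd_of_dvd_pow h1))
  have hα : (∏ i, osz o i) ≠ 0 ∧ padicValInt p (∏ i, osz o i) = 0 := by
    apply padic_prod
    intro i
    obtain ⟨m, h1, h2⟩ := claimC P i
    obtain ⟨h3, -, h4⟩ := hsz m h2
    rw [h1, padicValInt.of_nat]
    exact ⟨by exact_mod_cast h3, h4⟩
  have hβ : (∏ b, osz o' (w b)) ≠ 0 ∧ padicValInt p (∏ b, osz o' (w b)) = 0 := by
    apply padic_prod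
    intro i
    obtain ⟨m, h1, h2⟩ := claimC P' (w i)
    obtain ⟨h3, -, h4⟩ := hsz m h2
    rw [h1, padicValInt.of_nat]
    exact ⟨by exact_mod_cast h3, h4⟩
  have hnp : n ^ Fintype.card I ≠ 0 := pow_ne_zero _ hn
  have hev := even_val h2q hpq m hm _ _ μ F (mul_ne_zero (mul_ne_zero hα.1 hβ.1) hnp) rfl hF
  rw [padicValInt.mul (mul_ne_zero hα.1 hβ.1) hnp, padicValInt.mul hα.1 hβ.1, hα.2, hβ.2, zero_add,
    zero_add] at hev
  have hpow : padicValInt p (n ^ Fintype.card I) = Fintype.card I * padicValInt p n := by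
    have : ∀ m : ℕ, padicValInt p (n ^ m) = m * padicValInt p n := by
      intro m
      induction m with
      | zero => simp
      | succ m ih =>
        rw [pow_succ, padicValInt.mul (pow_ne_zero _ hn) hn, ih]
        ring
    exact this _
  rw [hpow] at hev
  have hI : Odd (Fintype.card I) := by
    have e1 : ((univ.filter (fun x => Gd φ χ x)).card : ℤ) = ∑ i, osz o i := by
      unfold osz
      rw [Finset.sum_comm, ← Finset.sum_boole]
      refine Finset.sum_congr rfl fun x _ => ?_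
      rcases hx : o x with _ | i0
      · have : ¬ Gd φ χ x := fun h => (P.gd x).2 h hx
        simp [this]
      · have : Gd φ χ x := (P.gd x).1 (by rw [hx]; simp)
        simp [this]
    have e2 : ∀ i, ((osz o i : ℤ) : ZMod 2) = 1 := by
      intro i
      obtain ⟨m, h1, h2⟩ := claimC P i
      obtain ⟨-, h3, -⟩ := hsz m h2
      rw [h1]
      push_cast
      exact (ZMod.natCast_eq_one_iff_odd).2 h3
    have e3 := congrArg (fun x : ℤ => (x : ZMod 2)) e1
    push_cast at e3
    simp only [e2, Finset.sum_const, Finset.card_univ, nsmul_eq_mul, mul_one] at e3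
    rw [(ZMod.natCast_eq_one_iff_odd).2 hodd] at e3
    exact (ZMod.natCast_eq_one_iff_odd).1 e3.symm
  exact (Nat.even_mul.1 hev).resolve_left (Nat.not_even_iff_odd.2 hI)

end Pool.Agent.H73.TR
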