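import Mathlib

/-!
Parametrisation of the good orbits of a finite group `G` acting on a set, for a homomorphism
`χ : G → ZMod q`: a point is good if `χ` vanishes on its stabiliser.
-/

set_option autoImplicit false

open Finset Classical

namespace Pool.Agent.H73.TR

/-- good points: `χ` vanishes on the stabiliser -/
def Gd {G X : Type} [Group G] {q : ℕ} (φ : G →* Equiv.Perm X) (χ : G → ZMod q) (x : X) : Prop :=
  ∀ g : G, φ g x = x → χ g = 0

/-- parametrisation of the good orbits -/
structure Par {G X : Type} [Group G] {q : ℕ} (φ : G →* Equiv.Perm X) (χ : G → ZMod q) (I : Type)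
    (r : I → X) (o : X → Option I) (κ : X → ZMod q) : Prop where
  or' : ∀ i, o (r i) = some i
  kr : ∀ i, κ (r i) = 0
  og : ∀ g x, o (φ g x) = o x
  kg : ∀ g x, o x ≠ none → κ (φ g x) = κ x + χ g
  tr : ∀ x i, o x = some i → ∃ g, φ g (r i) = x
  gd : ∀ x, o x ≠ none ↔ Gd φ χ x

variable {G X : Type} [Group G] {q : ℕ}

theorem inv_app {X : Type} (σ : Equiv.Perm X) (x : X) : σ⁻¹ (σ x) = x :=
  σ.symm_apply_apply x

theorem inv_of {G X : Type} [Group G] (φ : G →* Equiv.Perm X) {g : G} {a b : X}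
    (h : φ g a = b) : φ g⁻¹ b = a := by
  rw [← h, map_inv, inv_app]

theorem chi_one {χ : G → ZMod q} (hχ : ∀ a b, χ (a * b) = χ a + χ b) : χ 1 = 0 := by
  have h := hχ 1 1
  rw [mul_one] at h
  exact left_eq_add.1 h

theorem chi_inv {χ : G → ZMod q} (hχ : ∀ a b, χ (a * b) = χ a + χ b) (g : G) :
    χ g⁻¹ = - χ g := by
  have h := hχ g⁻¹ g
  rw [inv_mul_cancel, chi_one hχ] at h
  exact eq_neg_of_add_eq_zero_left h.symm

theorem Gd_smul {φ : G →* Equiv.Perm X} {χ : G → ZMod q} (hχ : ∀ a b, χ (a * b) = χ a + χ b)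
    (g : G) {x : X} (hx : Gd φ χ x) : Gd φ χ (φ g x) := by
  intro h hh
  have h1 : φ (g⁻¹ * h * g) x = x := by
    rw [map_mul, map_mul, Equiv.Perm.mul_apply, Equiv.Perm.mul_apply, hh, map_inv,
      inv_app]
  have h2 := hx _ h1
  rw [hχ, hχ, chi_inv hχ] at h2
  have h3 : -χ g + χ h + χ g = χ h := by ring
  rwa [h3] at h2

theorem exists_par [Finite X] (φ : G →* Equiv.Perm X) (χ : G → ZMod q)
    (hχ : ∀ a b, χ (a * b) = χ a + χ b) :
    ∃ (I : Type) (_ : Fintype I) (r : I → X) (o : X → Option I) (κ : X → ZMod q),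
      Par φ χ I r o κ := by
  let R : Setoid X := {
    r := fun x y => ∃ g, φ g x = y
    iseqv := {
      refl := fun x => ⟨1, by simp⟩
      symm := by
        rintro x y ⟨g, rfl⟩
        exact ⟨g⁻¹, by rw [map_inv, inv_app]⟩
      trans := by
        rintro x y z ⟨g, rfl⟩ ⟨h, rfl⟩
        exact ⟨h * g, by rw [map_mul, Equiv.Perm.mul_apply]⟩ } }
  have hR : ∀ x : X, ∃ g, φ g (Quotient.mk R x).out = x := fun x =>
    Quotient.exact (s := R) (Quotient.out_eq (Quotient.mk R x))
  choose gg hgg using hR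
  have hmk : ∀ g x, Quotient.mk R (φ g x) = Quotient.mk R x := fun g x =>
    (Quotient.sound (s := R) (⟨g, rfl⟩ : ∃ h, φ h x = φ g x)).symm
  let I := {c : Quotient R // Gd φ χ c.out}
  let o : X → Option I := fun x =>
    if h : Gd φ χ (Quotient.mk R x).out then some ⟨Quotient.mk R x, h⟩ else none
  have ho : ∀ x, o x ≠ none ↔ Gd φ χ (Quotient.mk R x).out := by
    intro x
    simp only [o]
    split_ifs with h
    · simp [h]
    · simp [h]
  have : Finite (Quotient R) := Quotient.finite _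
  refine ⟨I, Fintype.ofFinite _, fun i => i.1.out, o, fun x => χ (gg x), ?_, ?_, ?_, ?_, ?_, ?_⟩
  · rintro ⟨c, hc⟩
    simp only [o]
    have h1 : Quotient.mk R c.out = c := Quotient.out_eq c
    rw [dif_pos (by rw [h1]; exact hc)]
    simp only [h1]
  · rintro ⟨c, hc⟩
    have h1 : Quotient.mk R c.out = c := Quotient.out_eq c
    have h2 := hgg c.out
    rw [h1] at h2
    exact hc _ h2
  · intro g x
    simp only [o, hmk]
  · intro g x hx
    have hgood := (ho x).1 hx
    have h1 := hgg (φ g x)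
    rw [hmk] at h1
    have h2 := hgg x
    have h3 : φ ((gg (φ g x))⁻¹ * (g * gg x)) (Quotient.mk R x).out = (Quotient.mk R x).out := by
      rw [map_mul, map_mul, Equiv.Perm.mul_apply, Equiv.Perm.mul_apply, h2]
      exact inv_of φ h1
    have h4 := hgood _ h3
    rw [hχ, hχ, chi_inv hχ] at h4
    change χ (gg (φ g x)) = χ (gg x) + χ g
    linear_combination -h4
  · intro x i hi
    simp only [o] at hi
    split_ifs at hi with h
    have h1 := Option.some.inj hi
    refine ⟨gg x, ?_⟩
    rw [← h1]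
    exact hgg x
  · intro x
    rw [ho]
    constructor
    · intro h
      have := Gd_smul hχ (gg x) h
      rwa [hgg x] at this
    · intro h
      have := Gd_smul hχ (gg x)⁻¹ h
      have h1 : φ (gg x)⁻¹ x = (Quotient.mk R x).out := inv_of φ (hgg x)
      rwa [h1] at this

end Pool.Agent.H73.TR
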